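import Mathlib
import Pool.Agent.H21.TDDef

namespace Pool.Agent.Results.MP_6ebba1_al.NotDiagonalizable

open Pool.Agent.H21.TD Module

abbrev V := Fin 4 → ℂ

noncomputable def A : End ℂ V := Matrix.toLin' !![1, 0, 0, 0; 0, 0, 0, 0; 0, 0, 0, 0; 0, 0, 0, -1]
noncomputable def B : End ℂ V := Matrix.toLin' !![5, -2, 3, 0; 8, -5, 0, 3; 3, 0, 5, -2; 0, 3, 8, -5]
noncomputable def S : End ℂ V :=
  Matrix.toLin' !![1, 0, 0, 0; 0, -16, 20, 0; 0, -5, 4, 0; 0, 0, 0, -4]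

theorem A_ap (v : V) : A v = ![v 0, 0, 0, -v 3] := by
  ext i; fin_cases i <;> simp [A, Matrix.mulVec, dotProduct, Fin.sum_univ_four]
theorem B_ap (v : V) : B v = ![5 * v 0 - 2 * v 1 + 3 * v 2, 8 * v 0 - 5 * v 1 + 3 * v 3,
    3 * v 0 + 5 * v 2 - 2 * v 3, 3 * v 1 + 8 * v 2 - 5 * v 3] := by
  ext i; fin_cases i <;> simp [B, Matrix.mulVec, dotProduct, Fin.sum_univ_four] <;> ring
theorem S_ap (v : V) : S v = ![v 0, -16 * v 1 + 20 * v 2, -5 * v 1 + 4 * v 2, -4 * v 3] := by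
  ext i; fin_cases i <;> simp [S, Matrix.mulVec, dotProduct, Fin.sum_univ_four]

theorem veq (u v : V) : u = v ↔ u 0 = v 0 ∧ u 1 = v 1 ∧ u 2 = v 2 ∧ u 3 = v 3 := by
  simp [funext_iff, Fin.forall_fin_succ]

theorem mA (μ : ℂ) (v : V) : v ∈ A.eigenspace μ ↔
    v 0 = μ * v 0 ∧ 0 = μ * v 1 ∧ 0 = μ * v 2 ∧ -v 3 = μ * v 3 := by
  rw [End.mem_eigenspace_iff, veq, A_ap]; simp
theorem mB (μ : ℂ) (v : V) : v ∈ B.eigenspace μ ↔
    5 * v 0 - 2 * v 1 + 3 * v 2 = μ * v 0 ∧ 8 * v 0 - 5 * v 1 + 3 * v 3 = μ * v 1 ∧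
    3 * v 0 + 5 * v 2 - 2 * v 3 = μ * v 2 ∧ 3 * v 1 + 8 * v 2 - 5 * v 3 = μ * v 3 := by
  rw [End.mem_eigenspace_iff, veq, B_ap]; simp
theorem mS (μ : ℂ) (v : V) : v ∈ S.eigenspace μ ↔
    v 0 = μ * v 0 ∧ -16 * v 1 + 20 * v 2 = μ * v 1 ∧ -5 * v 1 + 4 * v 2 = μ * v 2 ∧
      -4 * v 3 = μ * v 3 := by
  rw [End.mem_eigenspace_iff, veq, S_ap]; simp

def θ : Fin 3 → ℂ := ![1, 0, -1]
def η : Fin 3 → ℂ := ![6, 0, -6]

theorem A0 (v : V) : v ∈ A.eigenspace 1 ↔ v 1 = 0 ∧ v 2 = 0 ∧ v 3 = 0 := by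
  rw [mA]; grind
theorem A1 (v : V) : v ∈ A.eigenspace 0 ↔ v 0 = 0 ∧ v 3 = 0 := by
  rw [mA]; grind
theorem A2 (v : V) : v ∈ A.eigenspace (-1) ↔ v 0 = 0 ∧ v 1 = 0 ∧ v 2 = 0 := by
  rw [mA]; grind
theorem B0 (v : V) : v ∈ B.eigenspace 6 ↔ v 1 = v 0 ∧ v 2 = v 0 ∧ v 3 = v 0 := by
  rw [mB]; grind
theorem B1 (v : V) : v ∈ B.eigenspace 0 ↔
    4 * (v 0 + v 2) = v 1 + v 3 ∧ v 1 - v 3 = v 0 - v 2 := by
  rw [mB]; grind
theorem B2 (v : V) : v ∈ B.eigenspace (-6) ↔ v 1 = 4 * v 0 ∧ v 2 = -v 0 ∧ v 3 = -4 * v 0 := by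
  rw [mB]; grind

theorem A01 (v : V) : v ∈ A.eigenspace 1 ⊔ A.eigenspace 0 ↔ v 3 = 0 := by
  rw [Submodule.mem_sup]
  constructor
  · rintro ⟨y, hy, z, hz, rfl⟩
    rw [A0] at hy; rw [A1] at hz; simp only [Pi.add_apply]; grind
  · intro h
    exact ⟨![v 0, 0, 0, 0], (A0 _).mpr (by simp), ![0, v 1, v 2, 0], (A1 _).mpr (by simp), by simp [veq, h]⟩
theorem A12 (v : V) : v ∈ A.eigenspace 0 ⊔ A.eigenspace (-1) ↔ v 0 = 0 := by
  rw [Submodule.mem_sup]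
  constructor
  · rintro ⟨y, hy, z, hz, rfl⟩
    rw [A1] at hy; rw [A2] at hz; simp only [Pi.add_apply]; grind
  · intro h
    exact ⟨![0, v 1, v 2, 0], (A1 _).mpr (by simp), ![0, 0, 0, v 3], (A2 _).mpr (by simp), by simp [veq, h]⟩
theorem A012 : A.eigenspace 1 ⊔ A.eigenspace 0 ⊔ A.eigenspace (-1) = ⊤ := by
  rw [eq_top_iff]; intro v _
  rw [Submodule.mem_sup]
  exact ⟨![v 0, v 1, v 2, 0], (A01 _).mpr (by simp), ![0, 0, 0, v 3], (A2 _).mpr (by simp), by simp [veq]⟩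
theorem B01 (v : V) : v ∈ B.eigenspace 6 ⊔ B.eigenspace 0 ↔ v 1 - v 3 = v 0 - v 2 := by
  rw [Submodule.mem_sup]
  constructor
  · rintro ⟨y, hy, z, hz, rfl⟩
    rw [B0] at hy; rw [B1] at hz; simp only [Pi.add_apply]; grind
  · intro h
    refine ⟨fun _ => (4 * (v 0 + v 2) - (v 1 + v 3)) / 6, (B0 _).mpr (by simp),
      v - fun _ => (4 * (v 0 + v 2) - (v 1 + v 3)) / 6, ?_, by simp⟩
    rw [B1]; simp only [Pi.sub_apply]; grind
theorem B12 (v : V) : v ∈ B.eigenspace 0 ⊔ B.eigenspace (-6) ↔ 4 * (v 0 + v 2) = v 1 + v 3 := by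
  rw [Submodule.mem_sup]
  constructor
  · rintro ⟨y, hy, z, hz, rfl⟩
    rw [B1] at hy; rw [B2] at hz; simp only [Pi.add_apply]; grind
  · intro h
    refine ⟨v - ((v 1 - v 3 - (v 0 - v 2)) / 6) • ![1, 4, -1, -4], ?_,
      ((v 1 - v 3 - (v 0 - v 2)) / 6) • ![1, 4, -1, -4], ?_, sub_add_cancel _ _⟩
    · rw [B1]; simp; grind
    · rw [B2]; simp; grind
theorem B012 : B.eigenspace 6 ⊔ B.eigenspace 0 ⊔ B.eigenspace (-6) = ⊤ := by
  rw [eq_top_iff]; intro v _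
  rw [Submodule.mem_sup]
  refine ⟨v - ((v 1 - v 3 - (v 0 - v 2)) / 6) • ![1, 4, -1, -4], ?_,
      ((v 1 - v 3 - (v 0 - v 2)) / 6) • ![1, 4, -1, -4], ?_, sub_add_cancel _ _⟩
  · rw [B01]; simp; grind
  · rw [B2]; simp; grind

theorem irred (W : Submodule ℂ V) (hA : W.map A ≤ W) (hB : W.map B ≤ W) : W = ⊥ ∨ W = ⊤ := by
  have a : ∀ v ∈ W, A v ∈ W := fun v hv => hA ⟨v, hv, rfl⟩
  have b : ∀ v ∈ W, B v ∈ W := fun v hv => hB ⟨v, hv, rfl⟩
  have p0 : ∀ v ∈ W, (![v 0, 0, 0, 0] : V) ∈ W := by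
    intro v hv
    have := W.smul_mem (1 / 2 : ℂ) (W.add_mem (a _ hv) (a _ (a _ hv)))
    convert this using 1
    simp [veq, A_ap]; ring
  have p1 : ∀ v ∈ W, (![0, v 1, v 2, 0] : V) ∈ W := by
    intro v hv
    have := W.sub_mem hv (a _ (a _ hv))
    convert this using 1
    simp only [veq, A_ap, Pi.sub_apply]; simp
  by_cases h : ∀ v ∈ W, v 0 = 0
  · left
    rw [eq_bot_iff]; intro v hv
    have h0 := h v hv
    have h1 := h _ (b _ hv)
    have h2 := h _ (b _ (b _ (p1 _ hv)))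
    have h3 := h _ (b _ (b _ hv))
    simp [B_ap] at h1 h2 h3
    simp only [Submodule.mem_bot, veq, Pi.zero_apply]
    grind
  · right
    push Not at h
    obtain ⟨u, hu, hu0⟩ := h
    have e0 : (![1, 0, 0, 0] : V) ∈ W := by
      have := W.smul_mem (u 0)⁻¹ (p0 _ hu)
      convert this using 1
      simp [veq, hu0]
    have f1 := p1 _ (b _ e0)
    have f2 := p1 _ (b _ f1)
    have f3 := b _ f1
    rw [eq_top_iff]; intro v _
    have := W.add_mem (W.add_mem (W.add_mem (W.smul_mem (v 0 + 7 / 48 * v 3) e0)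
      (W.smul_mem ((3 * v 1 + 8 * v 2) / 48) f1))
      (W.smul_mem ((8 * v 2 - 3 * v 1) / 240 - v 3 / 48) f2)) (W.smul_mem (v 3 / 48) f3)
    convert this using 1
    simp [veq, B_ap]
    refine ⟨?_, ?_, ?_, ?_⟩ <;> ring

theorem hasA (μ : ℂ) : A.HasEigenvalue μ ↔ μ ∈ Set.range θ := by
  rw [End.hasEigenvalue_iff, Submodule.ne_bot_iff]
  constructor
  · rintro ⟨v, hv, h0⟩
    rw [mA] at hv
    by_contra hc
    have h1 : μ ≠ 1 := fun h => hc ⟨0, h.symm⟩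
    have h2 : μ ≠ 0 := fun h => hc ⟨1, h.symm⟩
    have h3 : μ ≠ -1 := fun h => hc ⟨2, h.symm⟩
    apply h0; simp only [veq, Pi.zero_apply]; grind
  · rintro ⟨i, rfl⟩
    fin_cases i
    · exact ⟨![1, 0, 0, 0], (A0 _).mpr (by simp), by simp [veq]⟩
    · exact ⟨![0, 1, 0, 0], (A1 _).mpr (by simp), by simp [veq]⟩
    · exact ⟨![0, 0, 0, 1], (A2 _).mpr (by simp), by simp [veq]⟩

theorem hasB (μ : ℂ) : B.HasEigenvalue μ ↔ μ ∈ Set.range η := by
  rw [End.hasEigenvalue_iff, Submodule.ne_bot_iff]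
  constructor
  · rintro ⟨v, hv, h0⟩
    rw [mB] at hv
    by_contra hc
    have h1 : μ ≠ 6 := fun h => hc ⟨0, h.symm⟩
    have h2 : μ ≠ 0 := fun h => hc ⟨1, h.symm⟩
    have h3 : μ ≠ -6 := fun h => hc ⟨2, h.symm⟩
    obtain ⟨a, b, c, d⟩ := hv
    have e1 : 4 * (v 0 + v 2) - (v 1 + v 3) = 0 :=
      (mul_eq_zero.mp (by linear_combination -4 * a - 4 * c + b + d)).resolve_left
        (sub_ne_zero.mpr h1)
    have e2 : v 1 - v 3 - (v 0 - v 2) = 0 :=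
      (mul_eq_zero.mp (by linear_combination a - c - b + d)).resolve_left
        (sub_ne_zero.mpr h3)
    have e3 : 4 * (v 0 - v 2) - (v 1 - v 3) = 0 :=
      (mul_eq_zero.mp (by linear_combination -4 * a + 4 * c + b - d)).resolve_left h2
    have e4 : v 1 + v 3 - (v 0 + v 2) = 0 :=
      (mul_eq_zero.mp (by linear_combination a + c - b - d)).resolve_left h2
    apply h0; simp only [veq, Pi.zero_apply]; grind
  · rintro ⟨i, rfl⟩
    fin_cases i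
    · exact ⟨![1, 1, 1, 1], (B0 _).mpr (by simp <;> norm_num), by simp [veq]⟩
    · exact ⟨![1, 1, -1, -1], (B1 _).mpr (by simp <;> norm_num), by simp [veq]⟩
    · exact ⟨![1, 4, -1, -4], (B2 _).mpr (by simp <;> norm_num), by simp [veq]⟩

theorem diag_of {f : End ℂ V} {a b c : ℂ}
    (h : f.eigenspace a ⊔ f.eigenspace b ⊔ f.eigenspace c = ⊤) : Diag f := by
  rw [Diag, eq_top_iff, ← h]
  exact sup_le (sup_le (le_iSup f.eigenspace a) (le_iSup f.eigenspace b)) (le_iSup f.eigenspace c)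

theorem isTD : IsTD A B 2 θ η := by
  refine ⟨inferInstance, inferInstance, diag_of A012, diag_of B012, ⟨?_, hasA, ?_⟩,
    ⟨?_, hasB, ?_⟩, irred⟩
  · intro i j; fin_cases i <;> fin_cases j <;> simp [θ] <;> norm_num
  · intro i
    rw [iSup_fin_three]
    fin_cases i <;> simp [θ, -End.eigenspace_zero, A012]
    · rintro _ ⟨v, hv, rfl⟩
      have hv := (A0 v).mp hv
      rw [A01, B_ap]; simp [hv]
    · rintro _ ⟨v, hv, rfl⟩
      have hv := (A2 v).mp hv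
      rw [A12, B_ap]; simp [hv]
  · intro i j; fin_cases i <;> fin_cases j <;> simp [η] <;> norm_num
  · intro i
    rw [iSup_fin_three]
    fin_cases i <;> simp [η, -End.eigenspace_zero, B012]
    · rintro _ ⟨v, hv, rfl⟩
      have hv := (B0 v).mp hv
      rw [B01, A_ap]; simp [hv]
    · rintro _ ⟨v, hv, rfl⟩
      have hv := (B2 v).mp hv
      rw [B12, A_ap]; simp [hv]

noncomputable def T (v : V) : V := ![v 0, (4 * v 1 - 20 * v 2) / 36, (5 * v 1 - 16 * v 2) / 36, -v 3 / 4]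

theorem ST (v : V) : S (T v) = v := by
  simp [veq, S_ap, T]; refine ⟨?_, ?_, ?_⟩ <;> ring

theorem map_eq {P Q : Submodule ℂ V} (h : ∀ v, v ∈ P ↔ S v ∈ Q) : P.map S = Q := by
  apply le_antisymm
  · rintro _ ⟨v, hv, rfl⟩; exact (h v).mp hv
  · intro v hv; exact ⟨T v, (h _).mpr (by rwa [ST]), ST v⟩

theorem adm : Admissible A B 2 θ η S := by
  intro i
  rw [iSup_fin_three, iSup_fin_three]
  fin_cases i <;> simp [θ, η, -End.eigenspace_zero, B012] <;> refine ⟨map_eq ?_, ?_⟩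
  · intro v; rw [A0, A0, S_ap]; simp; grind
  · refine map_eq fun v => ?_; rw [B0, B2, S_ap]; simp; grind
  · intro v; rw [A1, A1, S_ap]; simp
  · rw [← Submodule.map_sup]; refine map_eq fun v => ?_; rw [B01, B12, S_ap]; simp; grind
  · intro v; rw [A2, A2, S_ap]; simp; grind
  · rw [LinearMap.range_eq_top]; exact fun v => ⟨T v, ST v⟩

theorem notDiag : ¬ Diag S := by
  intro h
  let f : V →ₗ[ℂ] ℂ := LinearMap.proj 1 - 2 • LinearMap.proj 2
  have : (⊤ : Submodule ℂ V) ≤ LinearMap.ker f := by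
    rw [← h, iSup_le_iff]
    intro μ v hv
    rw [mS] at hv
    obtain ⟨-, b, c, -⟩ := hv
    simp only [f, LinearMap.mem_ker, LinearMap.sub_apply, LinearMap.smul_apply,
      LinearMap.proj_apply, nsmul_eq_mul]
    by_cases hμ : μ + 6 = 0
    · have : μ = -6 := by linear_combination hμ
      subst this; push_cast; linear_combination (-1 / 5 : ℂ) * c
    · refine (mul_eq_zero.mp ?_).resolve_left hμ
      push_cast; linear_combination -b + 2 * c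
  have := this (Submodule.mem_top (x := ![0, 1, 0, 0]))
  simp [f] at this

theorem result : ∃ (A B S : Module.End ℂ (Fin 4 → ℂ)) (d : ℕ) (θ η : Fin (d + 1) → ℂ),
    IsTD A B d θ η ∧ Admissible A B d θ η S ∧ ¬ Diag S :=
  ⟨A, B, S, 2, θ, η, isTD, adm, notDiag⟩

end Pool.Agent.Results.MP_6ebba1_al.NotDiagonalizable
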